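import Pool.Agent.H85.BC.Basic
import Pool.Agent.H85.BC.Targets

set_option autoImplicit false

open scoped InnerProductSpace Topology
open Filter Pool.Agent.H85.BC

namespace Pool.Agent.H30.BC

theorem pf_COV {H : Type} [NormedAddCommGroup H] [InnerProductSpace ℂ H] [CompleteSpace H]
    (hPART : T_PART H) (hCMP : T_CMP H) : T_COV H := by
  intro N ξ hN e he hep hne f hf hfp
  have hepos : 0 < ‖e ξ‖ := hN.traceVector.norm_pos_apply he hne
  obtain ⟨m, hm⟩ := exists_nat_gt (‖f ξ‖ ^ 2 / ‖e ξ‖ ^ 2)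
  have hmpos : (0 : ℝ) < m := lt_of_le_of_lt (by positivity) hm
  have hle : ‖f ξ‖ ^ 2 / m ≤ ‖e ξ‖ ^ 2 := by
    rw [div_lt_iff₀ (by positivity)] at hm
    rw [div_le_iff₀ hmpos]
    linarith
  obtain ⟨g, hg, _, hsum⟩ := hPART N ξ hN f hf hfp m (fun _ => ‖f ξ‖ ^ 2 / m)
    (fun _ => by positivity) (by
      rw [Finset.sum_const, Finset.card_univ, Fintype.card_fin, nsmul_eq_mul]
      field_simp)
  have hd : ∀ i, ∃ v ∈ N, star v * v = g i ∧ e * v = v := by
    intro i
    obtain ⟨h1, h2, h3⟩ := hg i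
    refine hCMP N ξ hN.traceVector hN.factor (g i) h1 h2 e he hep ?_
    have h4 : ‖(g i) ξ‖ ^ 2 ≤ ‖e ξ‖ ^ 2 := by rw [h3]; exact hle
    exact (pow_le_pow_iff_left₀ (norm_nonneg _) (norm_nonneg _) two_ne_zero).mp h4
  choose d hdN hdd hed using hd
  refine ⟨m, fun i => star (d i), fun i => ⟨star_mem (hdN i), ?_, ?_⟩, ?_⟩
  · have := congrArg star (hed i)
    rw [star_mul, hep.isSelfAdjoint.star_eq] at this
    exact this
  · show IsStarProjection (star (star (d i)) * star (d i))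
    rw [star_star]
    refine proj_mul_star ?_
    rw [hdd i]
    exact (hg i).2.1
  · show ∑ i, star (d i) * star (star (d i)) = f
    rw [← hsum]
    refine Finset.sum_congr rfl fun i _ => ?_
    rw [star_star, hdd i]

end Pool.Agent.H30.BC
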