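import Pool.Agent.H85.BC.Basic
import Pool.Agent.H85.BC.Targets

set_option autoImplicit false

open scoped InnerProductSpace Topology Nat
open Filter Pool.Agent.H85.BC

namespace Pool.Agent.H30.BC

variable {H : Type} [NormedAddCommGroup H] [InnerProductSpace ℂ H] [CompleteSpace H]

theorem ex_hasSum (b : H →L[ℂ] H) :
    HasSum (fun n : ℕ => ((n ! : ℂ)⁻¹) • b ^ n) (NormedSpace.exp b) :=
  NormedSpace.exp_series_hasSum_exp' (𝕂 := ℂ) b

theorem ex_hasSum_real (s : ℝ) : HasSum (fun n : ℕ => ((n ! : ℝ)⁻¹) * s ^ n) (Real.exp s) := by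
  have h := NormedSpace.exp_series_hasSum_exp' (𝕂 := ℝ) s
  rw [← Real.exp_eq_exp_ℝ] at h
  exact h

theorem ex_hasSum1 (b : H →L[ℂ] H) :
    HasSum (fun n : ℕ => (((n + 1) ! : ℂ)⁻¹) • b ^ (n + 1)) (NormedSpace.exp b - 1) := by
  have h := (hasSum_nat_add_iff' (f := fun n : ℕ => ((n ! : ℂ)⁻¹) • b ^ n) 1).mpr (ex_hasSum b)
  simpa using h

theorem ex_hasSum2 (b : H →L[ℂ] H) :
    HasSum (fun n : ℕ => (((n + 2) ! : ℂ)⁻¹) • b ^ (n + 2)) (NormedSpace.exp b - 1 - b) := by
  have h := (hasSum_nat_add_iff' (f := fun n : ℕ => ((n ! : ℂ)⁻¹) • b ^ n) 2).mpr (ex_hasSum b)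
  have h2 : NormedSpace.exp b - ∑ i ∈ Finset.range 2, ((i ! : ℂ)⁻¹) • b ^ i
      = NormedSpace.exp b - 1 - b := by
    simp [Finset.sum_range_succ, sub_sub]
  rw [h2] at h
  exact h

theorem ex_hasSum2_real (s : ℝ) :
    HasSum (fun n : ℕ => (((n + 2) ! : ℝ)⁻¹) * s ^ (n + 2)) (Real.exp s - 1 - s) := by
  have h := (hasSum_nat_add_iff' (f := fun n : ℕ => ((n ! : ℝ)⁻¹) * s ^ n) 2).mpr
    (ex_hasSum_real s)
  have h2 : Real.exp s - ∑ i ∈ Finset.range 2, ((i ! : ℝ)⁻¹) * s ^ i = Real.exp s - 1 - s := by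
    simp [Finset.sum_range_succ, sub_sub]
  rw [h2] at h
  exact h

theorem ex_pow_norm (b : H →L[ℂ] H) (s : ℝ) (hs : 0 ≤ s) (hb : ‖b‖ ≤ s) (n : ℕ) :
    ‖b ^ n‖ ≤ s ^ n := by
  induction n with
  | zero =>
    rw [pow_zero, pow_zero]
    exact ContinuousLinearMap.norm_id_le
  | succ n ih =>
    rw [pow_succ, pow_succ]
    exact (norm_mul_le _ _).trans (mul_le_mul ih hb (norm_nonneg _) (by positivity))

theorem pf_EXP {H : Type} [NormedAddCommGroup H] [InnerProductSpace ℂ H] [CompleteSpace H] :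
    T_EXP H := by
  intro N ξ hN a ha hsa hna s hs0 hs1
  set b : H →L[ℂ] H := (Complex.I * (s : ℂ)) • a with hb
  have hbN : b ∈ N := smul_mem' N _ ha
  have hbn : ‖b‖ ≤ s := by
    rw [hb, norm_smul, norm_mul, Complex.norm_I, one_mul, Complex.norm_real, Real.norm_eq_abs,
      abs_of_pos hs0]
    nlinarith
  have hskew : b ∈ skewAdjoint (H →L[ℂ] H) := by
    rw [skewAdjoint.mem_iff, hb, star_smul, hsa.star_eq, ← neg_smul]
    congr 1
    simp
  have huni : NormedSpace.exp b ∈ unitary (H →L[ℂ] H) := by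
    letI : NormedAlgebra ℚ (H →L[ℂ] H) := NormedAlgebra.restrictScalars ℚ ℂ (H →L[ℂ] H)
    exact NormedSpace.exp_mem_unitary_of_mem_skewAdjoint hskew
  refine ⟨NormedSpace.exp b, ?_, (Unitary.mem_iff.mp huni).1, (Unitary.mem_iff.mp huni).2, ?_, ?_,
    ?_⟩
  · refine mem_of_commutant N fun t ht => ?_
    have h1 : Commute t b := (ht b hbN).symm
    exact h1.exp_right
  · have h1 : ‖NormedSpace.exp b - 1 - b‖ ≤ Real.exp s - 1 - s := by
      refine (ex_hasSum2 b).norm_le_of_bounded (ex_hasSum2_real s) fun n => ?_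
      rw [norm_smul, norm_inv, Complex.norm_natCast]
      exact mul_le_mul_of_nonneg_left (ex_pow_norm b s hs0.le hbn _) (by positivity)
    refine h1.trans ?_
    have h2 := Real.abs_exp_sub_one_sub_id_le (x := s) (by rw [abs_of_pos hs0]; exact hs1)
    exact (le_abs_self _).trans h2
  · intro y hy
    set D := ‖(a * y - y * a) ξ‖ with hD
    have hD0 : 0 ≤ D := norm_nonneg _
    have hbD : ‖(b * y - y * b) ξ‖ ≤ s * D := by
      have h1 : b * y - y * b = (Complex.I * (s : ℂ)) • (a * y - y * a) := by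
        rw [hb, smul_mul_assoc, mul_smul_comm, smul_sub]
      rw [h1, ContinuousLinearMap.smul_apply, norm_smul, norm_mul, Complex.norm_I, one_mul,
        Complex.norm_real, Real.norm_eq_abs, abs_of_pos hs0]
    have hpow : ∀ n : ℕ, ‖(b ^ n * y - y * b ^ n) ξ‖ ≤ n * s ^ n * D := by
      intro n
      induction n with
      | zero => simp
      | succ n ih =>
        have h1 : b ^ (n + 1) * y - y * b ^ (n + 1)
            = b * (b ^ n * y - y * b ^ n) + (b * y - y * b) * b ^ n := by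
          rw [pow_succ']
          noncomm_ring
        rw [h1, ContinuousLinearMap.add_apply]
        refine (norm_add_le _ _).trans ?_
        have h2 : ‖(b * (b ^ n * y - y * b ^ n)) ξ‖ ≤ s * (n * s ^ n * D) :=
          (norm_mul_left ξ _ _).trans (mul_le_mul hbn ih (norm_nonneg _) hs0.le)
        have hcN : b * y - y * b ∈ N := sub_mem (mul_mem hbN hy) (mul_mem hy hbN)
        have h3 : ‖((b * y - y * b) * b ^ n) ξ‖ ≤ s ^ n * (s * D) :=
          (hN.norm_mul_right hcN (pow_mem hbN n)).trans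
            (mul_le_mul (ex_pow_norm b s hs0.le hbn n) hbD (norm_nonneg _) (by positivity))
        calc ‖(b * (b ^ n * y - y * b ^ n)) ξ‖ + ‖((b * y - y * b) * b ^ n) ξ‖
            ≤ s * (n * s ^ n * D) + s ^ n * (s * D) := add_le_add h2 h3
          _ = ((n + 1 : ℕ) : ℝ) * s ^ (n + 1) * D := by
              push_cast
              ring
    have h1 : HasSum (fun n : ℕ => (((n + 1) ! : ℂ)⁻¹) • ((b ^ (n + 1) * y - y * b ^ (n + 1)) ξ))
        ((NormedSpace.exp b * y - y * NormedSpace.exp b) ξ) := by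
      have h2 := ex_hasSum1 b
      have h3 := (h2.mul_right y).sub (h2.mul_left y)
      have h4 : (NormedSpace.exp b - 1) * y - y * (NormedSpace.exp b - 1)
          = NormedSpace.exp b * y - y * NormedSpace.exp b := by noncomm_ring
      rw [h4] at h3
      have h5 := h3.mapL (ContinuousLinearMap.apply ℂ H ξ)
      have h6 : (fun n : ℕ => (((n + 1) ! : ℂ)⁻¹) • ((b ^ (n + 1) * y - y * b ^ (n + 1)) ξ))
          = fun n : ℕ => (ContinuousLinearMap.apply ℂ H ξ)
            ((((n + 1) ! : ℂ)⁻¹) • b ^ (n + 1) * y - y * (((n + 1) ! : ℂ)⁻¹) • b ^ (n + 1)) := by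
        funext n
        rw [smul_mul_assoc, mul_smul_comm, ← smul_sub]
        rfl
      rw [h6]
      exact h5
    have h2 : HasSum (fun n : ℕ => s * D * (((n ! : ℝ)⁻¹) * s ^ n)) (s * D * Real.exp s) :=
      (ex_hasSum_real s).mul_left _
    have h3 := h1.norm_le_of_bounded h2 fun n => by
      rw [norm_smul, norm_inv, Complex.norm_natCast]
      have h4 := hpow (n + 1)
      have h5 : ((n + 1) ! : ℝ)⁻¹ * (((n + 1 : ℕ) : ℝ) * s ^ (n + 1) * D)
          = s * D * ((n ! : ℝ)⁻¹ * s ^ n) := by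
        rw [Nat.factorial_succ]
        have h6 : (n ! : ℝ) ≠ 0 := by positivity
        have h7 : ((n + 1 : ℕ) : ℝ) ≠ 0 := by positivity
        push_cast at h7 ⊢
        field_simp
        ring
      rw [← h5]
      exact mul_le_mul_of_nonneg_left h4 (by positivity)
    refine h3.trans ?_
    have h4 : Real.exp s ≤ 3 := by
      have := Real.exp_le_exp.mpr hs1
      have h5 := Real.exp_one_lt_d9
      linarith
    have h5 : 0 ≤ s * D := by positivity
    nlinarith
  · intro p hpa hap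
    have h1 := ex_hasSum1 b
    have hpb : p * b = b := by rw [hb, mul_smul_comm, hpa]
    have hbp : b * p = b := by rw [hb, smul_mul_assoc, hap]
    constructor
    · have h2 := h1.mul_right p
      have h3 : (fun n : ℕ => (((n + 1) ! : ℂ)⁻¹) • b ^ (n + 1) * p)
          = fun n : ℕ => (((n + 1) ! : ℂ)⁻¹) • b ^ (n + 1) := by
        funext n
        rw [smul_mul_assoc, pow_succ, mul_assoc, hbp]
      rw [h3] at h2
      exact h2.unique h1
    · have h2 := h1.mul_left p
      have h3 : (fun n : ℕ => p * (((n + 1) ! : ℂ)⁻¹) • b ^ (n + 1))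
          = fun n : ℕ => (((n + 1) ! : ℂ)⁻¹) • b ^ (n + 1) := by
        funext n
        rw [mul_smul_comm, pow_succ', ← mul_assoc, hpb]
      rw [h3] at h2
      exact h2.unique h1

end Pool.Agent.H30.BC
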