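import Pool.Agent.H85.BC.Basic
import Pool.Agent.H85.BC.Targets

set_option autoImplicit false

open scoped InnerProductSpace Topology
open Filter Pool.Agent.H85.BC

namespace Pool.Agent.H30.BC

theorem pf_PART {H : Type} [NormedAddCommGroup H] [InnerProductSpace ℂ H] [CompleteSpace H]
    (hNM : T_NM H) (hHALF : T_HALF H) : T_PART H := by
  intro N ξ hN f hf hfp n
  induction n generalizing f with
  | zero =>
    intro t _ hsum
    have h0 : f ξ = 0 := by
      have h1 : ‖f ξ‖ ^ 2 = 0 := by
        rw [← hsum]
        simp
      exact norm_eq_zero.mp (pow_eq_zero_iff two_ne_zero |>.mp h1)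
    have h2 : f = 0 := hN.traceVector.eq_zero hf h0
    exact ⟨fun i => i.elim0, fun i => i.elim0, fun i => i.elim0, by rw [h2]; simp⟩
  | succ n ih =>
    intro t ht hsum
    rw [Fin.sum_univ_succ] at hsum
    have hs0 : 0 ≤ ∑ i : Fin n, t i.succ := Finset.sum_nonneg fun i _ => ht _
    have h1 : t 0 ≤ ‖f ξ‖ ^ 2 := by linarith
    obtain ⟨e0, he0, he0p, hfe, hn0⟩ := hHALF N ξ hN.traceVector N (fun _ h => h) 1 (one_mem N)
      (IsStarProjection.one _) (hNM N ξ hN) f hf hfp (one_mul f) (t 0) (ht 0) h1
    have hg : IsStarProjection (f - e0) := proj_sub he0p hfp hfe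
    have hgN : f - e0 ∈ N := sub_mem hf he0
    have hgn := norm_sq_sub_proj ξ he0p hfp hfe
    obtain ⟨e, he, horth, hsumE⟩ := ih (f - e0) hgN hg (fun i => t i.succ) (fun i => ht _)
      (by rw [hgn, hn0]; linarith)
    have he0f : e0 * f = e0 := proj_mul_comm_of_le he0p hfp hfe
    have hge : ∀ i, (f - e0) * e i = e i := by
      intro i
      rw [← hsumE, Finset.sum_mul, Finset.sum_eq_single i]
      · exact (he i).2.1.isIdempotentElem.eq
      · intro j _ hj
        exact horth j i hj
      · intro h
        exact absurd (Finset.mem_univ i) h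
    have h0e : ∀ i, e0 * e i = 0 := by
      intro i
      rw [← hge i, ← mul_assoc, mul_sub, he0f, he0p.isIdempotentElem.eq, sub_self, zero_mul]
    have he0' : ∀ i, e i * e0 = 0 := by
      intro i
      have := congrArg star (h0e i)
      rw [star_mul, he0p.isSelfAdjoint.star_eq, (he i).2.1.isSelfAdjoint.star_eq,
        star_zero] at this
      exact this
    refine ⟨Fin.cons e0 e, ?_, ?_, ?_⟩
    · intro i
      refine Fin.cases ?_ (fun i => ?_) i
      · exact ⟨he0, he0p, hn0⟩
      · exact he i
    · intro i j
      refine Fin.cases ?_ (fun i => ?_) i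
      · refine Fin.cases ?_ (fun j => ?_) j
        · intro h
          exact absurd rfl h
        · intro _
          exact h0e j
      · refine Fin.cases ?_ (fun j => ?_) j
        · intro _
          exact he0' i
        · intro h
          exact horth i j fun hh => h (congrArg Fin.succ hh)
    · rw [Fin.sum_univ_succ]
      show e0 + ∑ i : Fin n, e i = f
      rw [hsumE]
      abel

end Pool.Agent.H30.BC
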